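import Pool.Agent.Bang.Main

set_option autoImplicit false

/-!
# Coverings of a convex body in three-space by sets with coplanar projection directions
-/

namespace Pool.Agent.Results.MP_fedf83_gt.CommonNormal

open MeasureTheory Pool.Agent.Bang
open scoped RealInnerProductSpace ENNReal

/-- If a compact convex `K` in three-space is covered by finitely many sets `A i`, each of which
attains its minimum projection area on the plane spanned by the orthonormal pair `p i, q i`, and if
the normals of these planes are all orthogonal to one nonzero vector `n`, then the minimum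
projection area of `K` is at most twice the sum of those of the `A i`. -/
theorem result {ι : Type} [Fintype ι] {K : Set E3} (hK : Convex ℝ K) (hc : IsCompact K)
    (A : ι → Set E3) (p q : ι → E3) (hpq : ∀ i, OrthPair (p i) (q i))
    (hmin : ∀ i, volume (pr (p i) (q i) '' A i) = minProj (A i)) {n : E3} (hn : n ≠ 0)
    (hax : ∀ i a, ⟪p i, a⟫ = 0 → ⟪q i, a⟫ = 0 → ⟪n, a⟫ = 0) (hcov : K ⊆ ⋃ i, A i) :
    minProj K ≤ 2 * ∑ i, minProj (A i) := by
  have h := main hK hc (fun i => ⟨p i, q i, hpq i, pr (p i) (q i) '' A i⟩) hn
    (fun i a ha => hax i a ha.1 ha.2) (fun x hx => by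
      obtain ⟨i, hi⟩ := Set.mem_iUnion.mp (hcov hx)
      exact Set.mem_iUnion.mpr ⟨i, ⟨x, hi, rfl⟩⟩)
  refine h.trans (le_of_eq ?_)
  congr 1
  exact Finset.sum_congr rfl fun i _ => hmin i

end Pool.Agent.Results.MP_fedf83_gt.CommonNormal
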